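import Pool.Agent.Helper546_folded.Next

/-!
# `Good s → Good s.next`
-/

set_option autoImplicit false

open Set Topology

namespace Pool.Agent.Helper546_folded

variable {s : Stage}

theorem isClosed_next (hs : Good s) : IsClosed {p : s.Z × s.Z | p.1 = p.2 ∨ p.1 ∈ s.L} := by
  have := hs.t2
  have h1 : IsClosed {p : s.Z × s.Z | p.1 = p.2} := isClosed_eq continuous_fst continuous_snd
  have h2 : IsClosed {p : s.Z × s.Z | p.1 ∈ s.L} := hs.fin.isClosed.preimage continuous_fst
  exact h1.union h2

/-- The retraction to the copy attached at `l`. -/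
noncomputable def ret (l : s.Z) (p : s.next.Z) : s.Z :=
  open Classical in if p.1.1 = l then p.1.2 else l

theorem continuous_ret (hs : Good s) (l : s.Z) : Continuous (ret (s := s) l) := by
  have := hs.t2
  have hfst : Continuous fun p : s.next.Z => p.1.1 := continuous_fst.comp continuous_subtype_val
  have hsnd : Continuous fun p : s.next.Z => p.1.2 := continuous_snd.comp continuous_subtype_val
  let A : Set s.next.Z := {p | p.1.1 = l}
  let B : Set s.next.Z := {p | p.1.1 = p.1.2 ∨ p.1.1 ∈ s.L \ {l}}
  have hA : IsClosed A := isClosed_eq hfst continuous_const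
  have hB : IsClosed B := (isClosed_eq hfst hsnd).union
    ((hs.fin.subset sdiff_subset).isClosed.preimage hfst)
  have hAB : A ∪ B = univ := by
    ext p
    simp only [mem_union, mem_univ, iff_true]
    by_cases h : p.1.1 = l
    · exact Or.inl h
    · right
      rcases p.2 with h' | h'
      · exact Or.inl h'
      · exact Or.inr ⟨h', h⟩
  have h1 : ContinuousOn (ret (s := s) l) A :=
    hsnd.continuousOn.congr fun p hp => by
      have : p.1.1 = l := hp
      simp [ret, this]
  have h2 : ContinuousOn (ret (s := s) l) B :=
    (continuousOn_const (c := l)).congr fun p hp => by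
      unfold ret
      split_ifs with h
      · rcases hp with h' | h'
        · rw [← h', h]
        · exact absurd h h'.2
      · rfl
  rw [← continuousOn_univ, ← hAB]
  exact h1.union_of_isClosed h2 hA hB

theorem irr_next (hs : Good s) (A : Set s.next.Z) (hA : IsPreconnected A) (hAc : IsClosed A)
    (hL : s.next.L ⊆ A) : A = univ := by
  have := hs.t2
  have := hs.compact
  have := nontrivial_of_good hs
  have := preconnectedSpace_of_good hs
  have : CompactSpace s.next.Z := isCompact_iff_compactSpace.mp (isClosed_next hs).isCompact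
  have hfst : Continuous fun p : s.next.Z => p.1.1 := continuous_fst.comp continuous_subtype_val
  -- the attached copies, off the marked point
  have h1 : ∀ l (hl : l ∈ s.L) z, z ≠ l → s.att l hl z ∈ A := by
    intro l hl z hz
    have himg : ret (s := s) l '' A = univ := by
      apply hs.irr
      · exact hA.image _ (continuous_ret hs l).continuousOn
      · exact (hAc.isCompact.image (continuous_ret hs l)).isClosed
      · intro m hm
        by_cases hml : m = l
        · subst hml
          obtain ⟨k, hk, hkm⟩ := hs.two m hm
          refine ⟨s.att k hk m, hL ⟨hk, hm, hkm⟩, ?_⟩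
          have : ¬ (s.att k hk m).1.1 = m := hkm
          simp [ret, this]
        · refine ⟨s.att l hl m, hL ⟨hl, hm, Ne.symm hml⟩, ?_⟩
          have : (s.att l hl m).1.1 = l := rfl
          simp only [ret, this, if_true]
          rfl
    obtain ⟨a, ha, haz⟩ : z ∈ ret (s := s) l '' A := by rw [himg]; trivial
    unfold ret at haz
    split_ifs at haz with h
    · have : a = s.att l hl z := Subtype.ext (Prod.ext h haz)
      rw [← this]; exact ha
    · exact absurd haz.symm hz
  -- the central copy, off the marked points
  have h2 : ∀ z, z ∉ s.L → s.mid z ∈ A := by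
    intro z hz
    have himg : (fun p : s.next.Z => p.1.1) '' A = univ := by
      apply hs.irr
      · exact hA.image _ hfst.continuousOn
      · exact (hAc.isCompact.image hfst).isClosed
      · intro l hl
        obtain ⟨m, hm, hml⟩ := hs.two l hl
        exact ⟨s.att l hl m, hL ⟨hl, hm, Ne.symm hml⟩, rfl⟩
    obtain ⟨a, ha, haz⟩ : z ∈ (fun p : s.next.Z => p.1.1) '' A := by rw [himg]; trivial
    have haz' : a.1.1 = z := haz
    have h3 : a.1.1 = a.1.2 := a.2.resolve_right (by rw [haz']; exact hz)
    have : a = s.mid z := Subtype.ext (Prod.ext haz' (h3.symm.trans haz'))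
    rw [← this]; exact ha
  -- the attaching points
  have h3 : ∀ l (hl : l ∈ s.L), s.att l hl l ∈ A := by
    intro l hl
    have : ConnectedSpace s.Z := { toNonempty := ⟨l⟩ }
    have : (𝓝[≠] l).NeBot := ConnectedSpace.neBot_nhdsWithin_compl_of_nontrivial_of_t1space l
    have ht : Filter.Tendsto (s.att l hl) (𝓝[≠] l) (𝓝 (s.att l hl l)) :=
      ((s.continuous_att l hl).tendsto l).mono_left nhdsWithin_le_nhds
    refine hAc.mem_of_tendsto ht ?_
    filter_upwards [self_mem_nhdsWithin] with z hz
    exact h1 l hl z hz
  refine eq_univ_of_forall fun p => ?_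
  rcases next_cases p with ⟨z, rfl⟩ | ⟨l, hl, z, rfl⟩
  · by_cases hz : z ∈ s.L
    · rw [mid_eq_att z hz]
      exact h3 z hz
    · exact h2 z hz
  · by_cases hz : z = l
    · subst hz; exact h3 z hl
    · exact h1 l hl z hz

theorem good_next (hs : Good s) : Good s.next := by
  have := hs.t2
  have := hs.compact
  have := hs.sc
  exact
  { compact := isCompact_iff_compactSpace.mp (isClosed_next hs).isCompact
    t2 := inferInstanceAs (T2Space {p : s.Z × s.Z // p.1 = p.2 ∨ p.1 ∈ s.L})
    sc := inferInstanceAs
      (SecondCountableTopology ({p : s.Z × s.Z | p.1 = p.2 ∨ p.1 ∈ s.L} : Set (s.Z × s.Z)))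
    fin := by
      have h : (s.L ×ˢ s.L).Finite := hs.fin.prod hs.fin
      refine (h.preimage (f := fun p : s.next.Z => p.1) Subtype.val_injective.injOn).subset ?_
      rintro p ⟨h1, h2, _⟩
      exact ⟨h1, h2⟩
    ne := by
      obtain ⟨l, hl⟩ := hs.ne
      obtain ⟨m, hm, hml⟩ := hs.two l hl
      exact ⟨s.att l hl m, hl, hm, Ne.symm hml⟩
    two := by
      rintro ⟨⟨c, z⟩, h⟩ ⟨hc, hz, hne⟩
      have hc' : c ∈ s.L := hc
      have hz' : z ∈ s.L := hz
      have hne' : c ≠ z := hne
      refine ⟨s.att z hz' c, ⟨hz', hc', Ne.symm hne'⟩, ?_⟩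
      intro e
      have : (s.att z hz' c).1.1 = c := by rw [e]
      exact hne' this.symm
    cont := hs.cont.comp s.continuous_proj
    surj := hs.surj.comp surj_proj
    tips := by
      rintro p ⟨_, h2, _⟩
      exact hs.tips _ h2
    irr := irr_next hs
    prod := prod_next hs }

end Pool.Agent.Helper546_folded
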