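import Pool.Agent.Helper546_folded.Next

/-!
# Near and far pairs of points of the triod
-/

set_option autoImplicit false

open Set Topology

namespace Pool.Agent.Helper546_folded

/-- The pairs of points at distance at most `1/4`. -/
def Near : Set (Triod × Triod) := {p | ∀ i, |p.1.1 i - p.2.1 i| ≤ 1 / 4}

/-- The pairs of points at distance at least `1/2`. -/
def Far : Set (Triod × Triod) := {p | ∃ i, 1 / 2 ≤ |p.1.1 i - p.2.1 i|}

theorem continuous_diff (i : Fin 3) : Continuous fun p : Triod × Triod => |p.1.1 i - p.2.1 i| :=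
  (((continuous_coord i).comp continuous_fst).sub ((continuous_coord i).comp continuous_snd)).abs

theorem isClosed_near : IsClosed Near := by
  unfold Near
  rw [ofPred_forall]
  exact isClosed_iInter fun i => isClosed_le (continuous_diff i) continuous_const

theorem isClosed_far : IsClosed Far := by
  have : Far = ⋃ i, {p : Triod × Triod | 1 / 2 ≤ |p.1.1 i - p.2.1 i|} := by
    ext p; simp [Far]
  rw [this]
  exact isClosed_iUnion_of_finite fun i => isClosed_le continuous_const (continuous_diff i)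

/-- The square of two legs. -/
def sq (i j : Fin 3) (p : Icc (0 : ℝ) 1 × Icc (0 : ℝ) 1) : Triod × Triod := (leg i p.1, leg j p.2)

theorem continuous_sq (i j : Fin 3) : Continuous (sq i j) :=
  (continuous_leg i).prodMap (continuous_leg j)

/-- A set of parameters that is star-shaped in one of the two coordinates -/
theorem isPreconnected_sq (i j : Fin 3) (C : Set (ℝ × ℝ)) (hC : Convex ℝ C) :
    IsPreconnected (sq i j '' {p | ((p.1 : ℝ), (p.2 : ℝ)) ∈ C}) := by
  refine IsPreconnected.image ?_ _ (continuous_sq i j).continuousOn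
  -- the set of the parameters is the continuous image of a convex set
  let D : Set (ℝ × ℝ) := C ∩ (Icc (0 : ℝ) 1 ×ˢ Icc (0 : ℝ) 1)
  have hD : IsPreconnected D := (hC.inter ((convex_Icc 0 1).prod (convex_Icc 0 1))).isPreconnected
  have h : {p : Icc (0 : ℝ) 1 × Icc (0 : ℝ) 1 | ((p.1 : ℝ), (p.2 : ℝ)) ∈ C} =
      (fun x : ℝ × ℝ => (projIcc (0 : ℝ) 1 zero_le_one x.1, projIcc (0 : ℝ) 1 zero_le_one x.2)) '' D := by
    ext ⟨s, t⟩
    constructor
    · intro hst
      exact ⟨((s : ℝ), (t : ℝ)), ⟨hst, s.2, t.2⟩, by simp⟩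
    · rintro ⟨⟨x, y⟩, ⟨hxy, hx, hy⟩, he⟩
      have h1 : projIcc (0 : ℝ) 1 zero_le_one x = s := congrArg Prod.fst he
      have h2 : projIcc (0 : ℝ) 1 zero_le_one y = t := congrArg Prod.snd he
      rw [projIcc_of_mem _ hx] at h1
      rw [projIcc_of_mem _ hy] at h2
      rw [← h1, ← h2]
      exact hxy
  rw [h]
  refine hD.image _ (Continuous.continuousOn ?_)
  exact (continuous_projIcc.comp continuous_fst).prodMk (continuous_projIcc.comp continuous_snd)

theorem mem_sq_image {i j : Fin 3} {C : Set (ℝ × ℝ)} {s t : Icc (0 : ℝ) 1}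
    (h : ((s : ℝ), (t : ℝ)) ∈ C) :
    (leg i s, leg j t) ∈ sq i j '' {p | ((p.1 : ℝ), (p.2 : ℝ)) ∈ C} := ⟨(s, t), h, rfl⟩

theorem abs_self (i : Fin 3) (s t : Icc (0 : ℝ) 1) :
    |(leg i s).1 i - (leg i t).1 i| = |(s : ℝ) - t| := by
  rw [leg_apply_self, leg_apply_self]

theorem abs_left {i j : Fin 3} (h : i ≠ j) (s t : Icc (0 : ℝ) 1) :
    |(leg i s).1 i - (leg j t).1 i| = s := by
  rw [leg_apply_self, leg_apply_ne h, sub_zero, abs_of_nonneg s.2.1]

theorem abs_right {i j : Fin 3} (h : i ≠ j) (s t : Icc (0 : ℝ) 1) :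
    |(leg i s).1 j - (leg j t).1 j| = t := by
  rw [leg_apply_self, leg_apply_ne (Ne.symm h), zero_sub, abs_neg, abs_of_nonneg t.2.1]

theorem abs_other {i j k : Fin 3} (h : k ≠ i) (h' : k ≠ j) (s t : Icc (0 : ℝ) 1) :
    |(leg i s).1 k - (leg j t).1 k| = 0 := by
  rw [leg_apply_ne h, leg_apply_ne h', sub_zero, abs_zero]

theorem near_self {i : Fin 3} {s t : Icc (0 : ℝ) 1} :
    (leg i s, leg i t) ∈ Near ↔ |(s : ℝ) - t| ≤ 1 / 4 := by
  constructor
  · intro h
    have := h i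
    rwa [abs_self] at this
  · intro h k
    by_cases hk : k = i
    · subst hk; show |(leg k s).1 k - (leg k t).1 k| ≤ _; rw [abs_self]; exact h
    · show |(leg i s).1 k - (leg i t).1 k| ≤ _
      rw [abs_other hk hk]; norm_num

theorem near_ne {i j : Fin 3} (hij : i ≠ j) {s t : Icc (0 : ℝ) 1} :
    (leg i s, leg j t) ∈ Near ↔ (s : ℝ) ≤ 1 / 4 ∧ (t : ℝ) ≤ 1 / 4 := by
  constructor
  · intro h
    have h1 := h i
    have h2 := h j
    rw [abs_left hij] at h1
    rw [abs_right hij] at h2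
    exact ⟨h1, h2⟩
  · rintro ⟨h1, h2⟩ k
    show |(leg i s).1 k - (leg j t).1 k| ≤ _
    by_cases hk : k = i
    · subst hk; rw [abs_left hij]; exact h1
    · by_cases hk' : k = j
      · subst hk'; rw [abs_right hij]; exact h2
      · rw [abs_other hk hk']; norm_num

theorem far_self {i : Fin 3} {s t : Icc (0 : ℝ) 1} :
    (leg i s, leg i t) ∈ Far ↔ 1 / 2 ≤ |(s : ℝ) - t| := by
  constructor
  · rintro ⟨k, hk⟩
    have hk1 : 1 / 2 ≤ |(leg i s).1 k - (leg i t).1 k| := hk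
    by_cases hki : k = i
    · subst hki; rwa [abs_self] at hk1
    · rw [abs_other hki hki] at hk1; norm_num at hk1
  · intro h
    exact ⟨i, by show _ ≤ |(leg i s).1 i - (leg i t).1 i|; rw [abs_self]; exact h⟩

theorem far_ne {i j : Fin 3} (hij : i ≠ j) {s t : Icc (0 : ℝ) 1} :
    (leg i s, leg j t) ∈ Far ↔ 1 / 2 ≤ (s : ℝ) ∨ 1 / 2 ≤ (t : ℝ) := by
  constructor
  · rintro ⟨k, hk⟩
    have hk1 : 1 / 2 ≤ |(leg i s).1 k - (leg j t).1 k| := hk
    by_cases hki : k = i
    · subst hki; rw [abs_left hij] at hk1; exact Or.inl hk1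
    · by_cases hkj : k = j
      · subst hkj; rw [abs_right hij] at hk1; exact Or.inr hk1
      · rw [abs_other hki hkj] at hk1; norm_num at hk1
  · rintro (h | h)
    · exact ⟨i, by show _ ≤ |(leg i s).1 i - (leg j t).1 i|; rw [abs_left hij]; exact h⟩
    · exact ⟨j, by show _ ≤ |(leg i s).1 j - (leg j t).1 j|; rw [abs_right hij]; exact h⟩

theorem convex_band : Convex ℝ {p : ℝ × ℝ | |p.1 - p.2| ≤ 1 / 4} := by
  intro x hx y hy a c ha hc hac
  simp only [mem_ofPred_eq, abs_le, Prod.fst_add, Prod.smul_fst, Prod.snd_add, Prod.smul_snd,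
    smul_eq_mul] at hx hy ⊢
  constructor <;> nlinarith

theorem isPreconnected_near : IsPreconnected Near := by
  refine isPreconnected_of_forall (ctr, ctr) ?_
  rintro ⟨u, v⟩ huv
  obtain ⟨i, s, rfl⟩ := exists_leg u
  obtain ⟨j, t, rfl⟩ := exists_leg v
  by_cases hij : i = j
  · subst hij
    refine ⟨sq i i '' {p | ((p.1 : ℝ), (p.2 : ℝ)) ∈ {p : ℝ × ℝ | |p.1 - p.2| ≤ 1 / 4}}, ?_, ?_, ?_,
      isPreconnected_sq _ _ _ convex_band⟩
    · rintro _ ⟨p, hp, rfl⟩
      exact near_self.mpr hp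
    · rw [← leg_zero i]
      exact mem_sq_image (by simp)
    · exact mem_sq_image (near_self.mp huv)
  · refine ⟨sq i j '' {p | ((p.1 : ℝ), (p.2 : ℝ)) ∈ Iic (1 / 4 : ℝ) ×ˢ Iic (1 / 4 : ℝ)}, ?_, ?_, ?_,
      isPreconnected_sq _ _ _ ((convex_Iic _).prod (convex_Iic _))⟩
    · rintro _ ⟨p, hp, rfl⟩
      exact (near_ne hij).mpr hp
    · have : (ctr, ctr) = (leg i ⟨0, by simp⟩, leg j ⟨0, by simp⟩) := by rw [leg_zero, leg_zero]
      rw [this]
      exact mem_sq_image (by simp)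
    · exact mem_sq_image ((near_ne hij).mp huv)

theorem near_touch (i : Fin 3) : (tip i, tip i) ∈ Near := near_self.mpr (by simp)

theorem far_tip {i j : Fin 3} (hij : i ≠ j) : (tip i, tip j) ∈ Far :=
  (far_ne hij).mpr (Or.inl (by norm_num))

/-- joined inside `Far` -/
def FarJ (x y : Triod × Triod) : Prop := ∃ t ⊆ Far, x ∈ t ∧ y ∈ t ∧ IsPreconnected t

theorem FarJ.symm {x y : Triod × Triod} (h : FarJ x y) : FarJ y x := by
  obtain ⟨t, h1, h2, h3, h4⟩ := h
  exact ⟨t, h1, h3, h2, h4⟩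

theorem FarJ.trans {x y z : Triod × Triod} (h : FarJ x y) (h' : FarJ y z) : FarJ x z := by
  obtain ⟨t, h1, h2, h3, h4⟩ := h
  obtain ⟨t', h1', h2', h3', h4'⟩ := h'
  exact ⟨t ∪ t', union_subset h1 h1', Or.inl h2, Or.inr h3', h4.union y h3 h2' h4'⟩

theorem farJ_left {i j : Fin 3} (hij : i ≠ j) {s t s' t' : Icc (0 : ℝ) 1} (hs : 1 / 2 ≤ (s : ℝ))
    (hs' : 1 / 2 ≤ (s' : ℝ)) : FarJ (leg i s, leg j t) (leg i s', leg j t') := by
  refine ⟨sq i j '' {p | ((p.1 : ℝ), (p.2 : ℝ)) ∈ Ici (1 / 2 : ℝ) ×ˢ univ}, ?_, ?_, ?_,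
    isPreconnected_sq _ _ _ ((convex_Ici _).prod convex_univ)⟩
  · rintro _ ⟨p, hp, rfl⟩
    exact (far_ne hij).mpr (Or.inl hp.1)
  · exact mem_sq_image ⟨hs, trivial⟩
  · exact mem_sq_image ⟨hs', trivial⟩

theorem farJ_right {i j : Fin 3} (hij : i ≠ j) {s t s' t' : Icc (0 : ℝ) 1} (ht : 1 / 2 ≤ (t : ℝ))
    (ht' : 1 / 2 ≤ (t' : ℝ)) : FarJ (leg i s, leg j t) (leg i s', leg j t') := by
  refine ⟨sq i j '' {p | ((p.1 : ℝ), (p.2 : ℝ)) ∈ univ ×ˢ Ici (1 / 2 : ℝ)}, ?_, ?_, ?_,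
    isPreconnected_sq _ _ _ (convex_univ.prod (convex_Ici _))⟩
  · rintro _ ⟨p, hp, rfl⟩
    exact (far_ne hij).mpr (Or.inr hp.2)
  · exact mem_sq_image ⟨trivial, ht⟩
  · exact mem_sq_image ⟨trivial, ht'⟩

theorem convex_up : Convex ℝ {p : ℝ × ℝ | p.2 + 1 / 2 ≤ p.1} := by
  intro x hx y hy a c ha hc hac
  simp only [mem_ofPred_eq, Prod.fst_add, Prod.smul_fst, Prod.snd_add, Prod.smul_snd,
    smul_eq_mul] at hx hy ⊢
  nlinarith

theorem convex_down : Convex ℝ {p : ℝ × ℝ | p.1 + 1 / 2 ≤ p.2} := by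
  intro x hx y hy a c ha hc hac
  simp only [mem_ofPred_eq, Prod.fst_add, Prod.smul_fst, Prod.snd_add, Prod.smul_snd,
    smul_eq_mul] at hx hy ⊢
  nlinarith

theorem farJ_self_up {i : Fin 3} {s t : Icc (0 : ℝ) 1} (h : (t : ℝ) + 1 / 2 ≤ s) :
    FarJ (leg i s, leg i t) (tip i, ctr) := by
  refine ⟨sq i i '' {p | ((p.1 : ℝ), (p.2 : ℝ)) ∈ {p : ℝ × ℝ | p.2 + 1 / 2 ≤ p.1}}, ?_, ?_, ?_,
    isPreconnected_sq _ _ _ convex_up⟩
  · rintro _ ⟨p, hp, rfl⟩
    refine far_self.mpr ?_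
    have hp' : (p.2 : ℝ) + 1 / 2 ≤ p.1 := hp
    rw [le_abs]; left; linarith
  · exact mem_sq_image h
  · rw [← leg_zero i]
    exact mem_sq_image (by norm_num)

theorem farJ_self_down {i : Fin 3} {s t : Icc (0 : ℝ) 1} (h : (s : ℝ) + 1 / 2 ≤ t) :
    FarJ (leg i s, leg i t) (ctr, tip i) := by
  refine ⟨sq i i '' {p | ((p.1 : ℝ), (p.2 : ℝ)) ∈ {p : ℝ × ℝ | p.1 + 1 / 2 ≤ p.2}}, ?_, ?_, ?_,
    isPreconnected_sq _ _ _ convex_down⟩
  · rintro _ ⟨p, hp, rfl⟩
    refine far_self.mpr ?_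
    have hp' : (p.1 : ℝ) + 1 / 2 ≤ p.2 := hp
    rw [le_abs]; right; linarith
  · exact mem_sq_image h
  · rw [← leg_zero i]
    exact mem_sq_image (by norm_num)

theorem farJ_tip_ctr {i j : Fin 3} (hij : i ≠ j) : FarJ (tip i, tip j) (tip i, ctr) := by
  rw [← leg_zero j]
  exact farJ_left hij (by norm_num) (by norm_num)

theorem farJ_ctr_tip {i j : Fin 3} (hij : i ≠ j) : FarJ (tip i, tip j) (ctr, tip j) := by
  rw [← leg_zero i]
  exact farJ_right hij (by norm_num) (by norm_num)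

theorem farJ_tips_right {i j k : Fin 3} (hij : i ≠ j) (hik : i ≠ k) :
    FarJ (tip i, tip j) (tip i, tip k) := (farJ_tip_ctr hij).trans (farJ_tip_ctr hik).symm

theorem farJ_tips_left {i j k : Fin 3} (hik : i ≠ k) (hjk : j ≠ k) :
    FarJ (tip i, tip k) (tip j, tip k) := (farJ_ctr_tip hik).trans (farJ_ctr_tip hjk).symm

theorem farJ_tips {i j : Fin 3} (hij : i ≠ j) : FarJ (tip 0, tip 1) (tip i, tip j) := by
  have h01 : FarJ (tip 0, tip 1) (tip 0, tip 1) := farJ_tips_right (by decide) (by decide)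
  have h02 : FarJ (tip 0, tip 1) (tip 0, tip 2) := farJ_tips_right (by decide) (by decide)
  have h12 : FarJ (tip 0, tip 1) (tip 1, tip 2) := h02.trans (farJ_tips_left (by decide) (by decide))
  have h10 : FarJ (tip 0, tip 1) (tip 1, tip 0) := h12.trans (farJ_tips_right (by decide) (by decide))
  have h20 : FarJ (tip 0, tip 1) (tip 2, tip 0) := h10.trans (farJ_tips_left (by decide) (by decide))
  have h21 : FarJ (tip 0, tip 1) (tip 2, tip 1) := h20.trans (farJ_tips_right (by decide) (by decide))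
  fin_cases i <;> fin_cases j
  · exact absurd rfl hij
  · exact h01
  · exact h02
  · exact h10
  · exact absurd rfl hij
  · exact h12
  · exact h20
  · exact h21
  · exact absurd rfl hij

theorem isPreconnected_far : IsPreconnected Far := by
  refine isPreconnected_of_forall (tip 0, tip 1) ?_
  rintro ⟨u, v⟩ huv
  obtain ⟨i, s, rfl⟩ := exists_leg u
  obtain ⟨j, t, rfl⟩ := exists_leg v
  show FarJ _ _
  by_cases hij : i = j
  · subst hij
    obtain ⟨k, hk⟩ := exists_ne i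
    rcases le_abs.mp (far_self.mp huv) with h | h
    · exact (farJ_tips (Ne.symm hk)).trans
        ((farJ_tip_ctr (Ne.symm hk)).trans (farJ_self_up (by linarith)).symm)
    · exact (farJ_tips hk).trans ((farJ_ctr_tip hk).trans (farJ_self_down (by linarith)).symm)
  · rcases (far_ne hij).mp huv with h | h
    · exact (farJ_tips hij).trans (farJ_left hij (by norm_num) h)
    · exact (farJ_tips hij).trans (farJ_right hij (by norm_num) h)

theorem near_disjoint_far : Disjoint Near Far := by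
  rw [Set.disjoint_left]
  rintro p h ⟨i, hi⟩
  have := h i
  linarith

end Pool.Agent.Helper546_folded
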