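import Pool.Agent.Helper546_folded.Limit
import Pool.Agent.Helper546_folded.NearFar

/-!
# The inverse limit is an indecomposable continuum; two disjoint continua with interior in its square
-/

set_option autoImplicit false

open Set Topology

namespace Pool.Agent.Helper546_folded

/-- If the next stage is the union of two closed connected sets and the image of the first in the
stage before misses a marked point, then the image of the second one is everything. -/
theorem union_next {s : Stage} (hs : Good s) (A B : Set s.next.Z) (hA : IsPreconnected A)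
    (hAB : A ∪ B = univ) (l : s.Z) (hl : l ∈ s.L)
    (hlA : l ∉ s.proj '' A) : s.proj '' B = univ := by
  have := hs.t2
  have := hs.compact
  have hcov : ∀ p, p ∉ A → p ∈ B := fun p hp => by
    have : p ∈ A ∪ B := by rw [hAB]; trivial
    exact this.resolve_left hp
  -- the copy attached at `l`, and the rest
  have hfst : Continuous fun p : s.next.Z => p.1.1 := continuous_fst.comp continuous_subtype_val
  have hsnd : Continuous fun p : s.next.Z => p.1.2 := continuous_snd.comp continuous_subtype_val
  let C : Set s.next.Z := {p | p.1.1 = l}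
  let D : Set s.next.Z := {p | p.1.1 = p.1.2 ∨ p.1.1 ∈ s.L \ {l}}
  have hC : IsClosed C := isClosed_eq hfst continuous_const
  have hD : IsClosed D := (isClosed_eq hfst hsnd).union
    ((hs.fin.subset sdiff_subset).isClosed.preimage hfst)
  have hCD : A ⊆ C ∪ D := by
    intro p _
    by_cases h : p.1.1 = l
    · exact Or.inl h
    · right
      rcases p.2 with h' | h'
      · exact Or.inl h'
      · exact Or.inr ⟨h', h⟩
  have hdisj : A ∩ (C ∩ D) = ∅ := by
    rw [eq_empty_iff_forall_notMem]
    rintro p ⟨hpA, hpC, hpD⟩
    have hpC' : p.1.1 = l := hpC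
    rcases hpD with h | h
    · apply hlA
      exact ⟨p, hpA, by show p.1.2 = l; rw [← h]; exact hpC'⟩
    · exact h.2 hpC'
  rcases isPreconnected_iff_subset_of_disjoint_closed.mp hA C D hC hD hCD hdisj with h | h
  · -- `A` is in the attached copy: `B` contains the central copy
    refine eq_univ_of_forall fun z => ⟨s.mid z, ?_, rfl⟩
    apply hcov
    intro hz
    have h1 : z = l := h hz
    apply hlA
    rw [h1] at hz
    exact ⟨s.mid l, hz, rfl⟩
  · -- `A` avoids the attached copy
    refine eq_univ_of_forall fun z => ⟨s.att l hl z, ?_, rfl⟩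
    apply hcov
    intro hz
    rcases h hz with h1 | h1
    · have h1' : l = z := h1
      apply hlA
      rw [← h1'] at hz
      exact ⟨s.att l hl l, hz, rfl⟩
    · exact h1.2 rfl

theorem image_pr_q (n : ℕ) (A : Set Lim) : pr n '' (q (n + 1) '' A) = q n '' A := by
  rw [← image_comp]
  exact image_congr fun x _ => pr_q n x

/-- A closed connected set with proper image misses a marked point. -/
theorem exists_missed {s : Stage} (hs : Good s) (A : Set s.Z) (hA : IsPreconnected A)
    (hAc : IsClosed A) (hne : A ≠ univ) : ∃ l ∈ s.L, l ∉ A := by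
  by_contra h
  push Not at h
  exact hne (hs.irr A hA hAc h)

theorem indecomposable (A B : Set Lim) (hA : IsPreconnected A) (hAc : IsClosed A)
    (hBc : IsClosed B) (hAB : A ∪ B = univ) : A = univ ∨ B = univ := by
  have : ∀ n, T2Space (st n).Z := fun n => (good_st n).t2
  by_contra hcon
  rw [not_or] at hcon
  obtain ⟨hA', hB'⟩ := hcon
  obtain ⟨n₁, hn₁⟩ : ∃ n, q n '' A ≠ univ := by
    by_contra h
    push Not at h
    exact hA' (eq_univ_of_image A hAc h)
  obtain ⟨n₂, hn₂⟩ : ∃ n, q n '' B ≠ univ := by
    by_contra h
    push Not at h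
    exact hB' (eq_univ_of_image B hBc h)
  -- going up the images stay proper
  have hup : ∀ (E : Set Lim) (m n : ℕ), m ≤ n → q m '' E ≠ univ → q n '' E ≠ univ := by
    intro E m n hmn hm hn
    apply hm
    refine eq_univ_of_forall fun z => ?_
    obtain ⟨x, hx⟩ := q_surjective m z
    obtain ⟨e, he, hex⟩ : q n x ∈ q n '' E := by rw [hn]; trivial
    exact ⟨e, he, (q_eq_of_le hmn hex).trans hx⟩
  set n := max n₁ n₂ with hn
  have hAn : q n '' A ≠ univ := hup A n₁ n (le_max_left _ _) hn₁
  have hBn : q n '' B ≠ univ := hup B n₂ n (le_max_right _ _) hn₂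
  have hcl : ∀ (E : Set Lim), IsClosed E → ∀ m, IsClosed (q m '' E) := fun E hE m =>
    (hE.isCompact.image (continuous_q m)).isClosed
  obtain ⟨l, hl, hlA⟩ := exists_missed (good_st n) (q n '' A)
    (hA.image _ (continuous_q n).continuousOn) (hcl A hAc n) hAn
  have hcov : q (n + 1) '' A ∪ q (n + 1) '' B = univ := by
    rw [← image_union, hAB, image_univ]
    exact (q_surjective (n + 1)).range_eq
  have hlA' : l ∉ pr n '' (q (n + 1) '' A) := by
    rw [image_pr_q]
    exact hlA
  apply hBn
  rw [← image_pr_q]
  exact union_next (good_st n) (q (n + 1) '' A) (q (n + 1) '' B)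
    (hA.image _ (continuous_q (n + 1)).continuousOn) hcov l hl hlA'

/-- The near pairs of points of the limit. -/
def KNear : Set (Lim × Lim) := {p | (b p.1, b p.2) ∈ Near}

/-- The far pairs of points of the limit. -/
def KFar : Set (Lim × Lim) := {p | (b p.1, b p.2) ∈ Far}

theorem continuous_bb : Continuous fun p : Lim × Lim => (b p.1, b p.2) :=
  (continuous_b.comp continuous_fst).prodMk (continuous_b.comp continuous_snd)

theorem isClosed_KNear : IsClosed KNear := isClosed_near.preimage continuous_bb

theorem isClosed_KFar : IsClosed KFar := isClosed_far.preimage continuous_bb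

theorem isPreconnected_KNear : IsPreconnected KNear :=
  prod_lim Near isClosed_near isPreconnected_near (fun i => ⟨_, near_touch i⟩) fun i => ⟨_, near_touch i⟩

theorem isPreconnected_KFar : IsPreconnected KFar := by
  refine prod_lim Far isClosed_far isPreconnected_far (fun i => ?_) fun i => ?_
  · obtain ⟨j, hj⟩ := exists_ne i
    exact ⟨_, far_tip (Ne.symm hj)⟩
  · obtain ⟨j, hj⟩ := exists_ne i
    exact ⟨_, far_tip hj⟩

theorem disjoint_K : Disjoint KNear KFar := near_disjoint_far.preimage _

theorem b_surjective : Function.Surjective b := q_surjective 0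

theorem interior_KNear : (interior KNear).Nonempty := by
  obtain ⟨x, hx⟩ := b_surjective ctr
  refine ⟨(x, x), mem_interior.mpr ⟨{p | ∀ i, |(b p.1).1 i - (b p.2).1 i| < 1 / 4}, ?_, ?_, ?_⟩⟩
  · intro p hp i
    exact (hp i).le
  · rw [ofPred_forall]
    exact isOpen_iInter_of_finite fun i =>
      isOpen_lt ((continuous_diff i).comp continuous_bb) continuous_const
  · intro i
    simp

theorem interior_KFar : (interior KFar).Nonempty := by
  obtain ⟨x, hx⟩ := b_surjective ctr
  obtain ⟨y, hy⟩ := b_surjective (tip 0)
  refine ⟨(x, y), mem_interior.mpr ⟨{p | 1 / 2 < |(b p.1).1 0 - (b p.2).1 0|}, ?_, ?_, ?_⟩⟩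
  · intro p hp
    exact ⟨0, le_of_lt hp⟩
  · exact isOpen_lt continuous_const ((continuous_diff 0).comp continuous_bb)
  · show 1 / 2 < |(b x).1 0 - (b y).1 0|
    rw [hx, hy, ctr, tip, leg_apply_self, leg_apply_self]
    norm_num

instance : ConnectedSpace Lim := by
  obtain ⟨x, _⟩ := b_surjective ctr
  have h := isPreconnected_KNear.image Prod.fst continuous_fst.continuousOn
  have h2 : Prod.fst '' KNear = (univ : Set Lim) := by
    refine eq_univ_of_forall fun y => ⟨(y, y), ?_, rfl⟩
    intro i
    simp
  rw [h2] at h
  exact { isPreconnected_univ := h, toNonempty := ⟨x⟩ }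

instance : Nontrivial Lim := by
  obtain ⟨x, hx⟩ := b_surjective (tip 0)
  obtain ⟨y, hy⟩ := b_surjective (tip 1)
  refine ⟨x, y, fun h => tip_ne (i := 0) (j := 1) (by decide) ?_⟩
  rw [← hx, ← hy, h]

end Pool.Agent.Helper546_folded
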