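import Pool.Agent.Helper546_folded.GoodNext

/-!
# The inverse limit of the stages
-/

set_option autoImplicit false

open Set Topology

namespace Pool.Agent.Helper546_folded

/-- The stages: `Z_0` is the triod, `Z_(n+1)` is `Z_n` with a copy of `Z_n` attached at each marked
point. -/
def st : ℕ → Stage
  | 0 => Stage.first
  | n + 1 => (st n).next

theorem good_st : ∀ n, Good (st n)
  | 0 => good_first
  | n + 1 => good_next (good_st n)

/-- The bonding map `Z_(n+1) → Z_n`. -/
def pr (n : ℕ) : (st (n + 1)).Z → (st n).Z := (st n).proj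

theorem continuous_pr (n : ℕ) : Continuous (pr n) := (st n).continuous_proj

/-- The inverse limit. -/
def Lim : Type := {x : ∀ n, (st n).Z // ∀ n, pr n (x (n + 1)) = x n}

instance : TopologicalSpace Lim := inferInstanceAs
  (TopologicalSpace {x : ∀ n, (st n).Z // ∀ n, pr n (x (n + 1)) = x n})

/-- The projection to `Z_n`. -/
def q (n : ℕ) (x : Lim) : (st n).Z := x.1 n

theorem continuous_q (n : ℕ) : Continuous (q n) := (continuous_apply n).comp continuous_subtype_val

theorem pr_q (n : ℕ) (x : Lim) : pr n (q (n + 1) x) = q n x := x.2 n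

theorem q_ext {x y : Lim} (h : ∀ n, q n x = q n y) : x = y := Subtype.ext (funext h)

theorem q_eq_of_le {x y : Lim} {m n : ℕ} (hmn : m ≤ n) (h : q n x = q n y) : q m x = q m y := by
  induction n, hmn using Nat.le_induction with
  | base => exact h
  | succ n _ ih => exact ih (by rw [← pr_q n x, ← pr_q n y, h])

theorem isClosed_Lim : IsClosed {x : ∀ n, (st n).Z | ∀ n, pr n (x (n + 1)) = x n} := by
  have : ∀ n, T2Space (st n).Z := fun n => (good_st n).t2
  rw [ofPred_forall]
  exact isClosed_iInter fun n =>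
    isClosed_eq ((continuous_pr n).comp (continuous_apply (n + 1))) (continuous_apply n)

instance : CompactSpace Lim := by
  have : ∀ n, CompactSpace (st n).Z := fun n => (good_st n).compact
  exact isCompact_iff_compactSpace.mp isClosed_Lim.isCompact

instance : T2Space Lim := by
  have : ∀ n, T2Space (st n).Z := fun n => (good_st n).t2
  exact inferInstanceAs (T2Space {x : ∀ n, (st n).Z // ∀ n, pr n (x (n + 1)) = x n})

instance : SecondCountableTopology Lim := by
  have : ∀ n, SecondCountableTopology (st n).Z := fun n => (good_st n).sc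
  exact inferInstanceAs (SecondCountableTopology
    ({x : ∀ n, (st n).Z | ∀ n, pr n (x (n + 1)) = x n} : Set (∀ n, (st n).Z)))

/-- finite compatible sequences -/
theorem exists_down (n : ℕ) (z : (st n).Z) :
    ∃ w : ∀ m, (st m).Z, w n = z ∧ ∀ m < n, pr m (w (m + 1)) = w m := by
  induction n with
  | zero =>
    have hne : ∀ m, Nonempty (st m).Z := fun m => ⟨(good_st m).ne.some⟩
    exact ⟨Function.update (fun m => (hne m).some) 0 z, by simp, fun m hm => absurd hm (Nat.not_lt_zero m)⟩
  | succ n ih =>
    obtain ⟨w, hw, hw'⟩ := ih (pr n z)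
    refine ⟨Function.update w (n + 1) z, by simp, fun m hm => ?_⟩
    rcases (Nat.lt_succ_iff_lt_or_eq.mp hm) with h | h
    · rw [Function.update_of_ne (by omega), Function.update_of_ne (by omega)]
      exact hw' m h
    · subst h
      rw [Function.update_self, Function.update_of_ne (by omega), hw]

/-- The central copy of `Z_n` in `Z_(n+1)`. -/
def up (n : ℕ) : (st n).Z → (st (n + 1)).Z := (st n).mid

theorem pr_up (n : ℕ) (z : (st n).Z) : pr n (up n z) = z := rfl

/-- continue a sequence by the central copies -/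
def cont (n : ℕ) (w : ∀ m, (st m).Z) : ∀ m, (st m).Z
  | 0 => w 0
  | m + 1 => if m < n then w (m + 1) else up m (cont n w m)

theorem cont_le (n : ℕ) (w : ∀ m, (st m).Z) : ∀ m, m ≤ n → cont n w m = w m
  | 0, _ => rfl
  | m + 1, h => by
    simp only [cont]
    rw [if_pos (by omega)]

theorem q_surjective (n : ℕ) : Function.Surjective (q n) := by
  intro z
  obtain ⟨w, hw, hw'⟩ := exists_down n z
  refine ⟨⟨cont n w, fun m => ?_⟩, ?_⟩
  · by_cases h : m < n
    · rw [cont_le n w (m + 1) (by omega), cont_le n w m (by omega)]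
      exact hw' m h
    · have : cont n w (m + 1) = up m (cont n w m) := by
        simp only [cont]
        rw [if_neg h]
      rw [this, pr_up]
  · show cont n w n = z
    rw [cont_le n w n le_rfl, hw]

/-- The map to the triod. -/
def b (x : Lim) : Triod := q 0 x

theorem base_q (n : ℕ) (x : Lim) : (st n).base (q n x) = b x := by
  induction n with
  | zero => rfl
  | succ n ih => rw [← ih, ← pr_q n x]; rfl

theorem continuous_b : Continuous b := continuous_q 0

/-- A closed set with full projections is everything. -/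
theorem eq_univ_of_image (A : Set Lim) (hA : IsClosed A) (h : ∀ n, q n '' A = univ) : A = univ := by
  have : ∀ n, T2Space (st n).Z := fun n => (good_st n).t2
  refine eq_univ_of_forall fun x => ?_
  have hne : (⋂ n, (A ∩ {y | q n y = q n x})).Nonempty := by
    refine IsCompact.nonempty_iInter_of_sequence_nonempty_isCompact_isClosed _ ?_ ?_ ?_ ?_
    · rintro n y ⟨hy, hy'⟩
      exact ⟨hy, q_eq_of_le (Nat.le_succ n) hy'⟩
    · intro n
      obtain ⟨a, ha, hax⟩ : q n x ∈ q n '' A := by rw [h n]; trivial
      exact ⟨a, ha, hax⟩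
    · exact (hA.inter (isClosed_eq (continuous_q 0) continuous_const)).isCompact
    · intro n
      exact hA.inter (isClosed_eq (continuous_q n) continuous_const)
  obtain ⟨y, hy⟩ := hne
  rw [mem_iInter] at hy
  have : y = x := q_ext fun n => (hy n).2
  rw [← this]
  exact (hy 0).1

/-- The preimages in the product of two copies of the limit are connected. -/
theorem prod_lim (P : Set (Triod × Triod)) (hPc : IsClosed P) (hP : IsPreconnected P)
    (h1 : ∀ i, ∃ v, (tip i, v) ∈ P) (h2 : ∀ i, ∃ v, (v, tip i) ∈ P) :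
    IsPreconnected {p : Lim × Lim | (b p.1, b p.2) ∈ P} := by
  have : ∀ n, T2Space (st n).Z := fun n => (good_st n).t2
  set K : Set (Lim × Lim) := {p | (b p.1, b p.2) ∈ P} with hK
  have hKc : IsClosed K := hPc.preimage ((continuous_b.comp continuous_fst).prodMk
    (continuous_b.comp continuous_snd))
  let r : ∀ n, Lim × Lim → (st n).Z × (st n).Z := fun n => Prod.map (q n) (q n)
  have hr : ∀ n, Continuous (r n) := fun n => (continuous_q n).prodMap (continuous_q n)
  have hKn : ∀ n, r n '' K = {p : (st n).Z × (st n).Z | ((st n).base p.1, (st n).base p.2) ∈ P} := by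
    intro n
    ext ⟨z, w⟩
    constructor
    · rintro ⟨⟨x, y⟩, hxy, hzw⟩
      have hz : q n x = z := congrArg Prod.fst hzw
      have hw : q n y = w := congrArg Prod.snd hzw
      show ((st n).base z, (st n).base w) ∈ P
      rw [← hz, ← hw, base_q, base_q]
      exact hxy
    · intro hzw
      obtain ⟨x, rfl⟩ := q_surjective n z
      obtain ⟨y, rfl⟩ := q_surjective n w
      refine ⟨(x, y), ?_, rfl⟩
      have h3 : ((st n).base (q n x), (st n).base (q n y)) ∈ P := hzw
      rw [base_q, base_q] at h3
      exact h3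
  rw [isPreconnected_iff_subset_of_fully_disjoint_closed hKc]
  intro u v hu hv huv hdisj
  by_contra hcon
  rw [not_or] at hcon
  obtain ⟨hnu, hnv⟩ := hcon
  have hE : (K ∩ u).Nonempty := by
    obtain ⟨x, hx, hxv⟩ := not_subset.mp hnv
    exact ⟨x, hx, (huv hx).resolve_right hxv⟩
  have hF : (K ∩ v).Nonempty := by
    obtain ⟨x, hx, hxu⟩ := not_subset.mp hnu
    exact ⟨x, hx, (huv hx).resolve_left hxu⟩
  have hEc : IsClosed (K ∩ u) := hKc.inter hu
  have hFc : IsClosed (K ∩ v) := hKc.inter hv
  -- some level separates the two parts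
  obtain ⟨n, hn⟩ : ∃ n, Disjoint (r n '' (K ∩ u)) (r n '' (K ∩ v)) := by
    by_contra hcon
    push Not at hcon
    let C : ℕ → Set ((Lim × Lim) × (Lim × Lim)) := fun n =>
      ((K ∩ u) ×ˢ (K ∩ v)) ∩ {e | r n e.1 = r n e.2}
    have hCc : ∀ n, IsClosed (C n) := fun n => (hEc.prod hFc).inter
      (isClosed_eq ((hr n).comp continuous_fst) ((hr n).comp continuous_snd))
    have hne : (⋂ n, C n).Nonempty := by
      refine IsCompact.nonempty_iInter_of_sequence_nonempty_isCompact_isClosed _ ?_ ?_ ?_ hCc
      · rintro n ⟨e, f⟩ ⟨he, hef⟩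
        refine ⟨he, ?_⟩
        have h3 : r (n + 1) e = r (n + 1) f := hef
        show r n e = r n f
        have h4 : q (n + 1) e.1 = q (n + 1) f.1 := congrArg Prod.fst h3
        have h5 : q (n + 1) e.2 = q (n + 1) f.2 := congrArg Prod.snd h3
        exact Prod.ext (q_eq_of_le (Nat.le_succ n) h4) (q_eq_of_le (Nat.le_succ n) h5)
      · intro n
        obtain ⟨z, ⟨e, he, hez⟩, ⟨f, hf, hfz⟩⟩ := Set.not_disjoint_iff.mp (hcon n)
        exact ⟨(e, f), ⟨he, hf⟩, hez.trans hfz.symm⟩
      · exact (hCc 0).isCompact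
    obtain ⟨⟨e, f⟩, hef⟩ := hne
    rw [mem_iInter] at hef
    have hef' : e = f := Prod.ext
      (q_ext fun n => congrArg Prod.fst (hef n).2) (q_ext fun n => congrArg Prod.snd (hef n).2)
    have he : e ∈ u := (hef 0).1.1.2
    have hf : f ∈ v := (hef 0).1.2.2
    rw [← hef'] at hf
    exact Set.disjoint_left.mp hdisj he hf
  have hconn : IsPreconnected (r n '' K) := by
    rw [hKn n]
    exact (good_st n).prod P hP h1 h2
  have hcov : r n '' K ⊆ r n '' (K ∩ u) ∪ r n '' (K ∩ v) := by
    rw [← image_union, ← inter_union_distrib_left]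
    exact image_mono fun x hx => ⟨hx, huv hx⟩
  have hcl1 : IsClosed (r n '' (K ∩ u)) := (hEc.isCompact.image (hr n)).isClosed
  have hcl2 : IsClosed (r n '' (K ∩ v)) := (hFc.isCompact.image (hr n)).isClosed
  rcases isPreconnected_iff_subset_of_disjoint_closed.mp hconn _ _ hcl1 hcl2 hcov
    (by rw [hn.inter_eq, inter_empty]) with h | h
  · obtain ⟨x, hx⟩ := hF
    exact Set.disjoint_left.mp hn (h ⟨x, hx.1, rfl⟩) ⟨x, hx, rfl⟩
  · obtain ⟨x, hx⟩ := hE
    exact Set.disjoint_left.mp hn ⟨x, hx, rfl⟩ (h ⟨x, hx.1, rfl⟩)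

end Pool.Agent.Helper546_folded
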