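import Pool.Agent.Helper546_folded.Stage

/-!
# The properties `Good` hold for the triod and pass to the next stage
-/

set_option autoImplicit false

open Set Topology

namespace Pool.Agent.Helper546_folded

/-- The triod with its three tips. -/
def Stage.first : Stage where
  Z := Triod
  top := inferInstance
  L := range tip
  base := id

theorem tip_ne {i j : Fin 3} (h : i ≠ j) : tip i ≠ tip j := by
  intro e
  have h1 : (tip i).1 i = (tip j).1 i := by rw [e]
  have h2 : (tip i).1 i = 1 := leg_apply_self i _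
  have h3 : (tip j).1 i = 0 := leg_apply_ne h _
  rw [h2, h3] at h1
  exact one_ne_zero h1

theorem good_first : Good Stage.first where
  compact := inferInstanceAs (CompactSpace Triod)
  t2 := inferInstanceAs (T2Space Triod)
  sc := inferInstanceAs (SecondCountableTopology Triod)
  fin := finite_range tip
  ne := range_nonempty tip
  two := by
    rintro _ ⟨i, rfl⟩
    obtain ⟨j, hj⟩ := exists_ne i
    exact ⟨tip j, ⟨j, rfl⟩, tip_ne hj⟩
  cont := continuous_id
  surj := Function.surjective_id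
  tips := by
    rintro _ ⟨i, rfl⟩
    exact ⟨i, rfl⟩
  irr := fun A hA _ hL => triod_irr A hA fun i => hL ⟨i, rfl⟩
  prod := fun P hP _ _ => hP

section

variable {s : Stage}

theorem next_cases (p : s.next.Z) : (∃ z, p = s.mid z) ∨ ∃ l, ∃ hl : l ∈ s.L, ∃ z, p = s.att l hl z := by
  obtain ⟨⟨c, z⟩, h | h⟩ := p
  · left
    exact ⟨z, Subtype.ext (Prod.ext h rfl)⟩
  · right
    exact ⟨c, h, z, rfl⟩

theorem mid_eq_att (l : s.Z) (hl : l ∈ s.L) : s.mid l = s.att l hl l := rfl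

theorem proj_mid (z : s.Z) : s.proj (s.mid z) = z := rfl

theorem proj_att (l : s.Z) (hl : l ∈ s.L) (z : s.Z) : s.proj (s.att l hl z) = z := rfl

theorem base_next (p : s.next.Z) : s.next.base p = s.base (s.proj p) := rfl

theorem surj_proj : Function.Surjective s.proj := fun z => ⟨s.mid z, rfl⟩

/-- A connected subset of the preimage is joined to the part over the central copies. -/
theorem prod_next (hs : Good s) (P : Set (Triod × Triod)) (hP : IsPreconnected P)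
    (h1 : ∀ i, ∃ v, (tip i, v) ∈ P) (h2 : ∀ i, ∃ v, (v, tip i) ∈ P) :
    IsPreconnected {p : s.next.Z × s.next.Z | (s.next.base p.1, s.next.base p.2) ∈ P} := by
  set Q : Set (s.Z × s.Z) := {p | (s.base p.1, s.base p.2) ∈ P} with hQ
  have hQc : IsPreconnected Q := hs.prod P hP h1 h2
  -- the sections
  let S : Set (s.Z → s.next.Z) := {f | f = s.mid ∨ ∃ l, ∃ hl : l ∈ s.L, f = s.att l hl}
  have hS : ∀ f ∈ S, Continuous f ∧ ∀ z, s.proj (f z) = z := by
    rintro f (rfl | ⟨l, hl, rfl⟩)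
    · exact ⟨s.continuous_mid, fun z => rfl⟩
    · exact ⟨s.continuous_att l hl, fun z => rfl⟩
  have hmid : s.mid ∈ S := Or.inl rfl
  have hcover : ∀ p : s.next.Z, ∃ f ∈ S, f (s.proj p) = p := by
    intro p
    rcases next_cases p with ⟨z, rfl⟩ | ⟨l, hl, z, rfl⟩
    · exact ⟨_, hmid, rfl⟩
    · exact ⟨_, Or.inr ⟨l, hl, rfl⟩, rfl⟩
  have hpiece : ∀ f ∈ S, ∀ g ∈ S, IsPreconnected (Prod.map f g '' Q) := fun f hf g hg =>
    hQc.image _ ((hS f hf).1.prodMap (hS g hg).1).continuousOn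
  have hsub : ∀ f ∈ S, ∀ g ∈ S, Prod.map f g '' Q ⊆
      {p : s.next.Z × s.next.Z | (s.next.base p.1, s.next.base p.2) ∈ P} := by
    rintro f hf g hg _ ⟨q, hq, rfl⟩
    show (s.base (s.proj (f q.1)), s.base (s.proj (g q.2))) ∈ P
    rw [(hS f hf).2, (hS g hg).2]
    exact hq
  -- pieces meet
  have hmeet1 : ∀ f ∈ S, ∀ g ∈ S, (Prod.map f g '' Q ∩ Prod.map s.mid g '' Q).Nonempty := by
    rintro f (rfl | ⟨l, hl, rfl⟩) g hg
    · obtain ⟨v, hv⟩ := h1 0
      obtain ⟨z, hz⟩ := hs.surj (tip 0)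
      obtain ⟨w, hw⟩ := hs.surj v
      have : (z, w) ∈ Q := by show (s.base z, s.base w) ∈ P; rw [hz, hw]; exact hv
      exact ⟨_, ⟨_, this, rfl⟩, ⟨_, this, rfl⟩⟩
    · obtain ⟨i, hi⟩ := hs.tips l hl
      obtain ⟨v, hv⟩ := h1 i
      obtain ⟨w, hw⟩ := hs.surj v
      have : (l, w) ∈ Q := by show (s.base l, s.base w) ∈ P; rw [hi, hw]; exact hv
      exact ⟨_, ⟨_, this, rfl⟩, ⟨_, this, rfl⟩⟩
  have hmeet2 : ∀ g ∈ S, (Prod.map s.mid g '' Q ∩ Prod.map s.mid s.mid '' Q).Nonempty := by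
    rintro g (rfl | ⟨l, hl, rfl⟩)
    · obtain ⟨v, hv⟩ := h1 0
      obtain ⟨z, hz⟩ := hs.surj (tip 0)
      obtain ⟨w, hw⟩ := hs.surj v
      have : (z, w) ∈ Q := by show (s.base z, s.base w) ∈ P; rw [hz, hw]; exact hv
      exact ⟨_, ⟨_, this, rfl⟩, ⟨_, this, rfl⟩⟩
    · obtain ⟨i, hi⟩ := hs.tips l hl
      obtain ⟨v, hv⟩ := h2 i
      obtain ⟨w, hw⟩ := hs.surj v
      have : (w, l) ∈ Q := by show (s.base w, s.base l) ∈ P; rw [hi, hw]; exact hv
      exact ⟨_, ⟨_, this, rfl⟩, ⟨_, this, rfl⟩⟩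
  obtain ⟨q₀, hq₀⟩ : Q.Nonempty := by
    obtain ⟨v, hv⟩ := h1 0
    obtain ⟨z, hz⟩ := hs.surj (tip 0)
    obtain ⟨w, hw⟩ := hs.surj v
    exact ⟨(z, w), by show (s.base z, s.base w) ∈ P; rw [hz, hw]; exact hv⟩
  refine isPreconnected_of_forall (Prod.map s.mid s.mid q₀) ?_
  rintro ⟨x, y⟩ hxy
  obtain ⟨f, hf, hfx⟩ := hcover x
  obtain ⟨g, hg, hgy⟩ := hcover y
  have hxyQ : (x, y) ∈ Prod.map f g '' Q := by
    refine ⟨(s.proj x, s.proj y), hxy, ?_⟩
    show (f (s.proj x), g (s.proj y)) = (x, y)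
    rw [hfx, hgy]
  refine ⟨(Prod.map f g '' Q ∪ Prod.map s.mid g '' Q) ∪ Prod.map s.mid s.mid '' Q, ?_,
    Or.inr ⟨q₀, hq₀, rfl⟩, Or.inl (Or.inl hxyQ), ?_⟩
  · exact union_subset (union_subset (hsub f hf g hg) (hsub _ hmid g hg)) (hsub _ hmid _ hmid)
  · have a1 : IsPreconnected (Prod.map f g '' Q ∪ Prod.map s.mid g '' Q) :=
      (hpiece f hf g hg).union' (hmeet1 f hf g hg) (hpiece _ hmid g hg)
    refine a1.union' ?_ (hpiece _ hmid _ hmid)
    obtain ⟨x, hx1, hx2⟩ := hmeet2 g hg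
    exact ⟨x, Or.inr hx1, hx2⟩

theorem nontrivial_of_good (hs : Good s) : Nontrivial s.Z := by
  obtain ⟨l, hl⟩ := hs.ne
  obtain ⟨m, _, hm⟩ := hs.two l hl
  exact ⟨m, l, hm⟩

theorem preconnectedSpace_of_good (hs : Good s) : PreconnectedSpace s.Z := by
  have h := hs.prod univ (by
    have : PreconnectedSpace Triod := by
      refine ⟨isPreconnected_of_forall ctr ?_⟩
      intro y _
      obtain ⟨i, t, rfl⟩ := exists_leg y
      refine ⟨range (leg i), subset_univ _, ⟨_, leg_zero i⟩, ⟨t, rfl⟩, ?_⟩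
      exact isPreconnected_range (continuous_leg i)
    exact isPreconnected_univ) (fun i => ⟨ctr, trivial⟩) (fun i => ⟨ctr, trivial⟩)
  refine ⟨?_⟩
  have h2 := h.image Prod.fst continuous_fst.continuousOn
  convert h2
  ext z
  simp only [mem_univ, mem_image, mem_ofPred_eq, true_and, true_iff]
  exact ⟨(z, z), rfl⟩

end

end Pool.Agent.Helper546_folded
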