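import Mathlib

/-!
# Folded triods

The triod with its three tips, and the operation which attaches to a space `Z` with a finite set `L`
of marked points one further copy of `Z` at each marked point. In `Z × Z` this is the set of the pairs
`(c, z)` with `c = z` (the central copy) or `c ∈ L` (the copy attached at `c`).
-/

set_option autoImplicit false

open Set Topology

namespace Pool.Agent.Helper546_folded

/-- The triod: three unit intervals with a common end point `0`. -/
abbrev Triod : Type := {p : Fin 3 → ℝ // ∃ i, ∃ t ∈ Icc (0 : ℝ) 1, p = Pi.single i t}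

/-- The point with coordinate `t` on the leg `i`. -/
def leg (i : Fin 3) (t : Icc (0 : ℝ) 1) : Triod := ⟨Pi.single i (t : ℝ), i, t, t.2, rfl⟩

theorem continuous_coord (i : Fin 3) : Continuous fun p : Triod => p.1 i :=
  (continuous_apply i).comp continuous_subtype_val

theorem continuous_leg (i : Fin 3) : Continuous (leg i) :=
  Continuous.subtype_mk ((continuous_single (A := fun _ : Fin 3 => ℝ) i).comp
    (continuous_subtype_val : Continuous fun t : Icc (0 : ℝ) 1 => (t : ℝ))) _

theorem exists_leg (p : Triod) : ∃ i t, p = leg i t := by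
  obtain ⟨p, i, t, ht, rfl⟩ := p
  exact ⟨i, ⟨t, ht⟩, rfl⟩

/-- The centre of the triod. -/
def ctr : Triod := leg 0 ⟨0, by simp⟩

/-- The tip of the leg `i`. -/
def tip (i : Fin 3) : Triod := leg i ⟨1, by simp⟩

theorem leg_zero (i : Fin 3) : leg i ⟨0, by simp⟩ = ctr := by
  apply Subtype.ext
  simp [leg, ctr]

theorem leg_apply_self (i : Fin 3) (t : Icc (0 : ℝ) 1) : (leg i t).1 i = t := by simp [leg]

theorem leg_apply_ne {i j : Fin 3} (h : j ≠ i) (t : Icc (0 : ℝ) 1) : (leg i t).1 j = 0 := by
  simp [leg, h]

instance : CompactSpace Triod := by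
  have h : (univ : Set Triod) = ⋃ i, range (leg i) := by
    ext p
    obtain ⟨i, t, rfl⟩ := exists_leg p
    simp only [mem_univ, mem_iUnion, true_iff]
    exact ⟨i, t, rfl⟩
  refine ⟨?_⟩
  rw [h]
  exact isCompact_iUnion fun i => isCompact_range (continuous_leg i)

/-- A closed connected subset of the triod which contains the three tips is everything. -/
theorem triod_irr (A : Set Triod) (hA : IsPreconnected A) (ht : ∀ i, tip i ∈ A) : A = univ := by
  by_contra hne
  obtain ⟨p, hp⟩ := (ne_univ_iff_exists_notMem A).mp hne
  obtain ⟨i, t, rfl⟩ := exists_leg p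
  obtain ⟨j, hj⟩ : ∃ j : Fin 3, j ≠ i := exists_ne i
  let U : Set Triod := {x | (t : ℝ) < x.1 i}
  let V : Set Triod := {x | x.1 i < t} ∪ ⋃ k ∈ {k : Fin 3 | k ≠ i}, {x | 0 < x.1 k}
  have hU : IsOpen U := isOpen_lt continuous_const (continuous_coord i)
  have hV : IsOpen V := (isOpen_lt (continuous_coord i) continuous_const).union
    (isOpen_biUnion fun k _ => isOpen_lt continuous_const (continuous_coord k))
  have hcov : A ⊆ U ∪ V := by
    intro x hx
    obtain ⟨k, s, rfl⟩ := exists_leg x
    by_cases hk : k = i
    · subst hk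
      rcases lt_trichotomy (s : ℝ) t with h | h | h
      · right; left
        simpa [leg_apply_self] using h
      · exfalso
        apply hp
        have : s = t := Subtype.ext h
        rw [← this]
        exact hx
      · left
        simpa [U, leg_apply_self] using h
    · by_cases hs : 0 < (s : ℝ)
      · right; right
        simp only [mem_ofPred_eq, mem_iUnion]
        exact ⟨k, hk, by rw [leg_apply_self]; exact hs⟩
      · have hs0 : s = ⟨0, by simp⟩ := Subtype.ext (le_antisymm (not_lt.mp hs) s.2.1)
        rw [hs0, leg_zero] at hx ⊢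
        by_cases ht0 : 0 < (t : ℝ)
        · right; left
          simp only [mem_ofPred_eq]
          rw [← leg_zero i, leg_apply_self]
          simpa using ht0
        · exfalso
          apply hp
          have : t = ⟨0, by simp⟩ := Subtype.ext (le_antisymm (not_lt.mp ht0) t.2.1)
          rw [this, leg_zero]
          exact hx
  have htlt : (t : ℝ) < 1 := by
    refine lt_of_le_of_ne t.2.2 ?_
    intro h
    apply hp
    have : t = ⟨1, by simp⟩ := Subtype.ext h
    rw [this]
    exact ht i
  have h1 : (A ∩ U).Nonempty := ⟨tip i, ht i, by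
    show (t : ℝ) < (leg i _).1 i
    rw [leg_apply_self]; exact htlt⟩
  have h2 : (A ∩ V).Nonempty := ⟨tip j, ht j, by
    right
    simp only [mem_ofPred_eq, mem_iUnion]
    exact ⟨j, hj, by show 0 < (leg j _).1 j; rw [leg_apply_self]; exact one_pos⟩⟩
  obtain ⟨x, _, hxU, hxV⟩ := hA U V hU hV hcov h1 h2
  obtain ⟨k, s, rfl⟩ := exists_leg x
  have hxU' : (t : ℝ) < (leg k s).1 i := hxU
  have hki : k = i := by
    by_contra hk
    rw [leg_apply_ne (Ne.symm hk)] at hxU'
    linarith [t.2.1]
  subst hki
  rcases hxV with h | h
  · have h' : (leg k s).1 k < t := h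
    linarith
  · simp only [mem_ofPred_eq, mem_iUnion] at h
    obtain ⟨m, hm, h⟩ := h
    rw [leg_apply_ne hm] at h
    exact lt_irrefl _ h

/-- A space with a set of marked points and a map to the triod. -/
structure Stage where
  /-- the space -/
  Z : Type
  /-- its topology -/
  top : TopologicalSpace Z
  /-- the marked points -/
  L : Set Z
  /-- the map to the triod -/
  base : Z → Triod

attribute [instance] Stage.top

/-- Attach to `Z` one copy of `Z` at each marked point. -/
def Stage.next (s : Stage) : Stage where
  Z := {p : s.Z × s.Z // p.1 = p.2 ∨ p.1 ∈ s.L}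
  top := inferInstance
  L := {p | p.1.1 ∈ s.L ∧ p.1.2 ∈ s.L ∧ p.1.1 ≠ p.1.2}
  base := fun p => s.base p.1.2

/-- Folding the attached copies onto the central one. -/
def Stage.proj (s : Stage) (p : s.next.Z) : s.Z := p.1.2

/-- The central copy. -/
def Stage.mid (s : Stage) (z : s.Z) : s.next.Z := ⟨(z, z), Or.inl rfl⟩

/-- The copy attached at the marked point `l`. -/
def Stage.att (s : Stage) (l : s.Z) (hl : l ∈ s.L) (z : s.Z) : s.next.Z := ⟨(l, z), Or.inr hl⟩

theorem Stage.continuous_proj (s : Stage) : Continuous s.proj :=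
  continuous_snd.comp continuous_subtype_val

theorem Stage.continuous_mid (s : Stage) : Continuous s.mid :=
  Continuous.subtype_mk (continuous_id.prodMk continuous_id) _

theorem Stage.continuous_att (s : Stage) (l : s.Z) (hl : l ∈ s.L) : Continuous (s.att l hl) :=
  Continuous.subtype_mk (continuous_const.prodMk continuous_id) _

/-- The properties that pass from one stage to the next. -/
structure Good (s : Stage) : Prop where
  compact : CompactSpace s.Z
  t2 : T2Space s.Z
  sc : SecondCountableTopology s.Z
  fin : s.L.Finite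
  ne : s.L.Nonempty
  two : ∀ l ∈ s.L, ∃ m ∈ s.L, m ≠ l
  cont : Continuous s.base
  surj : Function.Surjective s.base
  tips : ∀ l ∈ s.L, ∃ i, s.base l = tip i
  irr : ∀ A : Set s.Z, IsPreconnected A → IsClosed A → s.L ⊆ A → A = univ
  prod : ∀ P : Set (Triod × Triod), IsPreconnected P → (∀ i, ∃ v, (tip i, v) ∈ P) →
    (∀ i, ∃ v, (v, tip i) ∈ P) → IsPreconnected {p : s.Z × s.Z | (s.base p.1, s.base p.2) ∈ P}

end Pool.Agent.Helper546_folded
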